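import Pool.Agent.W619.Y.Stm7
import Pool.Agent.W303.PG.Kod

/-! Growth of logarithmic pluricanonical forms from algebraically independent ratios. -/

set_option autoImplicit false
set_option linter.overlappingInstances false
set_option linter.unusedSectionVars false

universe u v

open FF IntermediateField Pool.Agent.W619.PQ Pool.Agent.W619.PL Pool.Agent.W619.TW
  Pool.Agent.W603.LV Pool.Agent.W619.Y Pool.Agent.W303.PG

namespace Pool.Agent.W327.PG.TRGE3

section

variable {k : Type v} {K : Type u} [Field k] [Field K] [Algebra k K] {n : ℕ}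
  {Bd : Place k K → Prop}

/-- regular pluricanonical forms of weight `w` -/
abbrev Sec (Bd : Place k K → Prop) (w : ℕ) (η : (Fin n → Derivation k K K) → K) : Prop :=
  IsSec k K n Bd {1} w 0 η

theorem dom_reg {v : Place k K} {f : K} (h : Dom v {1} 0 f) : f = 0 ∨ 0 ≤ v.ord f := by
  rcases h with h | ⟨s, _, _, h⟩
  · exact Or.inl h
  · right; simpa using h

theorem dom_mul {v : Place k K} {f g : K} (hf : Dom v {1} 0 f) (hg : Dom v {1} 0 g) :
    Dom v {1} 0 (f * g) := by
  rcases dom_reg hf with h | h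
  · left; rw [h, zero_mul]
  rcases dom_reg hg with h' | h'
  · left; rw [h', mul_zero]
  by_cases hf0 : f = 0
  · left; rw [hf0, zero_mul]
  by_cases hg0 : g = 0
  · left; rw [hg0, mul_zero]
  right
  refine ⟨1, by simp, one_ne_zero, ?_⟩
  rw [v.ord_mul hf0 hg0]
  simpa using add_nonneg h h'

theorem sec_one : Sec (n := n) Bd 0 (fun _ => 1) := by
  refine ⟨fun A D => by simp, fun v _ _ D _ => ?_, fun v _ _ D _ => ?_⟩
  · right
    exact ⟨1, by simp, one_ne_zero, by simp [v.ord_one]⟩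
  · right
    exact ⟨1, by simp, one_ne_zero, by simp [v.ord_one]⟩

theorem sec_mul {a b : ℕ} {η ζ : (Fin n → Derivation k K K) → K} (hη : Sec Bd a η)
    (hζ : Sec Bd b ζ) : Sec Bd (a + b) (fun D => η D * ζ D) := by
  refine ⟨fun A D => ?_, fun v hv hb D hD => ?_, fun v hv hb D hD => ?_⟩
  · change η _ * ζ _ = _
    rw [hη.1 A D, hζ.1 A D, pow_add]
    ring
  · exact dom_mul (hη.2.1 v hv hb D hD) (hζ.2.1 v hv hb D hD)
  · exact dom_mul (hη.2.2 v hv hb D hD) (hζ.2.2 v hv hb D hD)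

theorem sec_pow {a : ℕ} {η : (Fin n → Derivation k K K) → K} (hη : Sec Bd a η) (p : ℕ) :
    Sec Bd (p * a) (fun D => η D ^ p) := by
  induction p with
  | zero =>
    rw [Nat.zero_mul]
    simp only [pow_zero]
    exact sec_one
  | succ p ih =>
    rw [Nat.succ_mul]
    simp only [pow_succ]
    exact sec_mul ih hη

theorem sec_prod {ι : Type} (s : Finset ι) (a : ι → ℕ)
    (η : ι → (Fin n → Derivation k K K) → K) (h : ∀ l ∈ s, Sec Bd (a l) (η l)) :
    Sec Bd (∑ l ∈ s, a l) (fun D => ∏ l ∈ s, η l D) := by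
  classical
  induction s using Finset.induction_on with
  | empty =>
    simp only [Finset.sum_empty, Finset.prod_empty]
    exact sec_one
  | insert i s hi ih =>
    rw [Finset.sum_insert hi]
    simp only [Finset.prod_insert hi]
    exact sec_mul (h i (Finset.mem_insert_self i s)) (ih fun l hl => h l (Finset.mem_insert_of_mem hl))

end

theorem main : S_TRGE3.{u, v} := by
  intro k K _ _ _ _ n h Bd hn hK
  obtain ⟨m, hm, ω, hω, D0, hD0, hind⟩ := hK
  refine ⟨(h + 1) * m, Nat.mul_pos (Nat.succ_pos h) hm, fun j hj => ?_⟩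
  let M : ℕ := j * (h + 1)
  have hMm : M * m = j * ((h + 1) * m) := by
    change j * (h + 1) * m = j * ((h + 1) * m); ring
  have hrM : ∀ r : Fin h → Fin j, ∑ l, (r l : ℕ) ≤ M := by
    intro r
    calc ∑ l, (r l : ℕ) ≤ ∑ _l : Fin h, j := Finset.sum_le_sum fun l _ => (r l).2.le
      _ = h * j := by simp
      _ ≤ j * (h + 1) := by nlinarith
  let η : (Fin h → Fin j) → (Fin n → Derivation k K K) → K := fun r D =>
    ω 0 D ^ (M - ∑ l, (r l : ℕ)) * ∏ l : Fin h, ω l.succ D ^ (r l : ℕ)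
  have hη : ∀ r, Sec Bd (M * m) (η r) := by
    intro r
    have h1 := sec_mul (sec_pow (hω 0) (M - ∑ l, (r l : ℕ)))
      (sec_prod Finset.univ (fun l : Fin h => (r l : ℕ) * m)
        (fun l D => ω l.succ D ^ (r l : ℕ)) (fun l _ => sec_pow (hω l.succ) (r l : ℕ)))
    have h2 : (M - ∑ l, (r l : ℕ)) * m + ∑ l, (r l : ℕ) * m = M * m := by
      rw [← Finset.sum_mul, ← add_mul, Nat.sub_add_cancel (hrM r)]
    rw [h2] at h1
    exact h1
  have hli : LinearIndependent k η := by
    let φ : ((Fin n → Derivation k K K) → K) →ₗ[k] K := LinearMap.proj D0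
    refine LinearIndependent.of_comp φ ?_
    let W : K := ω 0 D0 ^ M
    have hW : W ≠ 0 := pow_ne_zero _ (hD0 0)
    have e : φ ∘ η = (LinearMap.mulLeft k W) ∘ fun r : Fin h → Fin j =>
        ∏ l, (ω l.succ D0 / ω 0 D0) ^ (r l : ℕ) := by
      funext r
      change ω 0 D0 ^ (M - ∑ l, (r l : ℕ)) * ∏ l : Fin h, ω l.succ D0 ^ (r l : ℕ) =
        ω 0 D0 ^ M * ∏ l, (ω l.succ D0 / ω 0 D0) ^ (r l : ℕ)
      have h3 : ∏ l : Fin h, ω l.succ D0 ^ (r l : ℕ) =
          ω 0 D0 ^ (∑ l, (r l : ℕ)) * ∏ l, (ω l.succ D0 / ω 0 D0) ^ (r l : ℕ) := by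
        rw [← Finset.prod_pow_eq_pow_sum, ← Finset.prod_mul_distrib]
        refine Finset.prod_congr rfl fun l _ => ?_
        rw [← mul_pow, mul_div_cancel₀ _ (hD0 0)]
      rw [h3, ← mul_assoc, ← pow_add, Nat.sub_add_cancel (hrM r)]
    rw [e]
    exact (mono_indep _ hind).map' (LinearMap.mulLeft k W)
      (LinearMap.ker_eq_bot.2 (mul_right_injective₀ hW))
  have hcardr : Fintype.card (Fin h → Fin j) = j ^ h := by simp
  let e : Fin (j ^ h) ≃ (Fin h → Fin j) := (Fintype.equivFinOfCardEq hcardr).symm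
  refine ⟨fun l => η (e l), hli.comp e e.injective, fun l => ?_⟩
  rw [← hMm]
  exact hη (e l)

end Pool.Agent.W327.PG.TRGE3
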